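import Pool.Agent.helper64.LE.Base

/-!
# Weights of symmetric functions on the torus
-/

set_option autoImplicit false

open Finset Classical

namespace Pool.Agent.helper66.LE

section FF

variable {d L : ℕ} [NeZero L]

theorem FF_norm_ee (k x : Tor d L) : ‖ee k x‖ = 1 := by
  unfold ee
  exact AddChar.norm_apply _ _

/-- `1 - Re w = |1 - w|² / 2` on the unit circle -/
theorem FF_one_sub_re {w : ℂ} (hw : ‖w‖ = 1) : 1 - w.re = ‖1 - w‖ ^ 2 / 2 := by
  have h1 : w.re ^ 2 + w.im ^ 2 = 1 := by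
    have := Complex.sq_norm w
    rw [hw, Complex.normSq_apply] at this
    nlinarith
  have h2 : ‖1 - w‖ ^ 2 = (1 - w.re) ^ 2 + w.im ^ 2 := by
    rw [Complex.sq_norm, Complex.normSq_apply]
    simp
    ring
  rw [h2]
  linarith [h1, sq_nonneg w.re, mul_self_nonneg (1 - w.re)]

theorem FF_norm_pow (w : ℂ) (hw : ‖w‖ = 1) (n : ℕ) : ‖1 - w ^ n‖ ≤ n * ‖1 - w‖ := by
  induction n with
  | zero => simp
  | succ n ih =>
    have : 1 - w ^ (n + 1) = (1 - w) + w * (1 - w ^ n) := by ring
    rw [this]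
    calc ‖1 - w + w * (1 - w ^ n)‖ ≤ ‖1 - w‖ + ‖w * (1 - w ^ n)‖ := norm_add_le _ _
      _ = ‖1 - w‖ + ‖1 - w ^ n‖ := by rw [norm_mul, hw, one_mul]
      _ ≤ ‖1 - w‖ + n * ‖1 - w‖ := by gcongr
      _ = ((n + 1 : ℕ) : ℝ) * ‖1 - w‖ := by push_cast; ring

theorem FF_norm_zpow (w : ℂ) (hw : ‖w‖ = 1) (n : ℤ) : ‖1 - w ^ n‖ ≤ |(n : ℝ)| * ‖1 - w‖ := by
  have hw0 : w ≠ 0 := by
    intro h; rw [h, norm_zero] at hw; exact zero_ne_one hw
  rcases Int.natAbs_eq n with h | h
  · rw [h, zpow_natCast]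
    have := FF_norm_pow w hw n.natAbs
    simpa using this
  · rw [h, zpow_neg, zpow_natCast]
    have h1 := FF_norm_pow w hw n.natAbs
    have h2 : 1 - (w ^ n.natAbs)⁻¹ = -((w ^ n.natAbs)⁻¹ * (1 - w ^ n.natAbs)) := by
      have : w ^ n.natAbs ≠ 0 := pow_ne_zero _ hw0
      field_simp
      ring
    rw [h2, norm_neg, norm_mul, norm_inv, norm_pow, hw, one_pow, inv_one, one_mul]
    simpa using h1

theorem FF_ee_prod (k x : Tor d L) :
    ee k x = ∏ j, (ZMod.stdAddChar (k j * x j) : ℂ) := by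
  unfold ee
  have h : ∀ s : Finset (Fin d), (ZMod.stdAddChar (∑ j ∈ s, k j * x j) : ℂ) =
      ∏ j ∈ s, (ZMod.stdAddChar (k j * x j) : ℂ) := by
    intro s
    induction s using Finset.induction_on with
    | empty => simp
    | insert a s ha ih => rw [sum_insert ha, prod_insert ha, AddChar.map_add_eq_mul, ih]
  exact h univ

/-- the coordinate factors -/
noncomputable def FF_c (k x : Tor d L) (j : Fin d) : ℝ := (ZMod.stdAddChar (k j * x j) : ℂ).re

theorem FF_abs_c (k x : Tor d L) (j : Fin d) : |FF_c k x j| ≤ 1 := by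
  unfold FF_c
  exact (Complex.abs_re_le_norm _).trans (AddChar.norm_apply _ _).le

theorem FF_c_bound (k x : Tor d L) (j : Fin d) :
    1 - FF_c k x j ≤ ab j x ^ 2 * (1 - (ZMod.stdAddChar (k j) : ℂ).re) := by
  unfold FF_c ab
  have h1 : k j * x j = (x j).valMinAbs • k j := by
    rw [zsmul_eq_mul, ZMod.coe_valMinAbs, mul_comm]
  have h2 : (ZMod.stdAddChar (k j * x j) : ℂ) = (ZMod.stdAddChar (k j) : ℂ) ^ (x j).valMinAbs := by
    rw [h1]
    exact AddChar.map_zsmul_eq_zpow _ _ _
  have hn : ‖(ZMod.stdAddChar (k j) : ℂ)‖ = 1 := AddChar.norm_apply _ _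
  have hn' : ‖(ZMod.stdAddChar (k j) : ℂ) ^ (x j).valMinAbs‖ = 1 := by
    rw [← h2]; exact AddChar.norm_apply _ _
  rw [h2, FF_one_sub_re hn', FF_one_sub_re hn]
  have h3 := FF_norm_zpow _ hn (x j).valMinAbs
  have h4 := pow_le_pow_left₀ (norm_nonneg _) h3 2
  rw [mul_pow] at h4
  linarith

theorem FF_prod {ι : Type} (s : Finset ι) (c : ι → ℝ) (hc : ∀ i, |c i| ≤ 1) :
    1 - ∏ i ∈ s, c i ≤ ∑ i ∈ s, (1 - c i) ∧ |∏ i ∈ s, c i| ≤ 1 := by
  induction s using Finset.induction_on with
  | empty => simp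
  | insert a s ha ih =>
    rw [prod_insert ha, sum_insert ha]
    have h1 := abs_le.1 (hc a)
    have h2 := abs_le.1 ih.2
    have h3 : |c a * ∏ i ∈ s, c i| ≤ 1 := by
      rw [abs_mul]
      exact mul_le_one₀ (hc a) (abs_nonneg _) ih.2
    refine ⟨?_, h3⟩
    nlinarith [ih.1, mul_nonneg (by linarith [h1.2] : 0 ≤ 1 - c a)
      (by linarith [h2.2] : 0 ≤ 1 - ∏ i ∈ s, c i)]

/-- symmetrization in the coordinates of `s` -/
theorem FF_flip (g : Tor d L → ℝ) (hg : ∀ j x, g (flp j x) = g x) (k : Tor d L)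
    (s : Finset (Fin d)) :
    ∑ x, (g x : ℂ) * ee k x =
      ∑ x, (g x : ℂ) * ((∏ j ∈ s, (FF_c k x j : ℂ)) *
        ∏ j ∈ univ \ s, (ZMod.stdAddChar (k j * x j) : ℂ)) := by
  induction s using Finset.induction_on with
  | empty =>
    refine sum_congr rfl fun x _ => ?_
    rw [prod_empty, one_mul, sdiff_empty]
    rw [FF_ee_prod]
  | insert i s hi ih =>
    rw [ih]
    have hsd : univ \ s = insert i (univ \ insert i s) := by
      ext a
      simp only [mem_sdiff, mem_univ, true_and, mem_insert]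
      by_cases h : a = i
      · subst h; simp [hi]
      · simp [h]
    have hni : i ∉ univ \ insert i s := by simp
    have hinv : Function.Involutive (flp i : Tor d L → Tor d L) := by
      intro x
      unfold flp
      rw [Function.update_idem, Function.update_self, neg_neg, Function.update_eq_self]
    -- the sum after the flip
    set R : Tor d L → ℂ := fun x => (g x : ℂ) * ((∏ j ∈ s, (FF_c k x j : ℂ)) *
      ∏ j ∈ univ \ insert i s, (ZMod.stdAddChar (k j * x j) : ℂ)) with hR
    have hRflp : ∀ x, R (flp i x) = R x := by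
      intro x
      simp only [hR]
      rw [hg i x]
      congr 2
      · refine prod_congr rfl fun j hj => ?_
        have hji : j ≠ i := fun h => hi (h ▸ hj)
        unfold FF_c flp
        rw [Function.update_of_ne hji]
      · refine prod_congr rfl fun j hj => ?_
        have hji : j ≠ i := fun h => hni (h ▸ hj)
        unfold flp
        rw [Function.update_of_ne hji]
    have hL : ∀ x : Tor d L, (g x : ℂ) * ((∏ j ∈ s, (FF_c k x j : ℂ)) *
        ∏ j ∈ univ \ s, (ZMod.stdAddChar (k j * x j) : ℂ)) =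
        R x * (ZMod.stdAddChar (k i * x i) : ℂ) := by
      intro x
      rw [hsd, prod_insert hni]
      simp only [hR]
      ring
    have hRt : ∀ x : Tor d L, (g x : ℂ) * ((∏ j ∈ insert i s, (FF_c k x j : ℂ)) *
        ∏ j ∈ univ \ insert i s, (ZMod.stdAddChar (k j * x j) : ℂ)) =
        R x * (FF_c k x i : ℂ) := by
      intro x
      rw [prod_insert hi]
      simp only [hR]
      ring
    rw [sum_congr rfl fun x _ => hL x, sum_congr rfl fun x _ => hRt x]
    have h1 : ∑ x, R x * (ZMod.stdAddChar (k i * x i) : ℂ) =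
        ∑ x, R x * (ZMod.stdAddChar (-(k i * x i)) : ℂ) := by
      rw [← Equiv.sum_comp hinv.toPerm]
      refine sum_congr rfl fun x _ => ?_
      simp only [Function.Involutive.coe_toPerm]
      rw [hRflp]
      congr 2
      unfold flp
      rw [Function.update_self]
      ring_nf
    have h2 : ∀ x : Tor d L, (FF_c k x i : ℂ) = ((ZMod.stdAddChar (k i * x i) : ℂ) +
        (ZMod.stdAddChar (-(k i * x i)) : ℂ)) / 2 := by
      intro x
      have h3 : (ZMod.stdAddChar (-(k i * x i)) : ℂ) =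
          (starRingEnd ℂ) (ZMod.stdAddChar (k i * x i) : ℂ) := by
        rw [AddChar.map_neg_eq_conj]
      rw [h3]
      unfold FF_c
      rw [Complex.add_conj]
      push_cast
      ring
    have h4 : ∑ x, R x * (FF_c k x i : ℂ) = (∑ x, R x * (ZMod.stdAddChar (k i * x i) : ℂ) +
        ∑ x, R x * (ZMod.stdAddChar (-(k i * x i)) : ℂ)) / 2 := by
      rw [← sum_add_distrib, sum_div]
      refine sum_congr rfl fun x _ => ?_
      rw [h2 x]
      ring
    rw [h4, ← h1]
    ring

theorem FF_sum_cs (g : Tor d L → ℝ) (hg : ∀ j x, g (flp j x) = g x) (k : Tor d L) :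
    ∑ x, g x * cs k x = ∑ x, g x * ∏ j, FF_c k x j := by
  have h := FF_flip g hg k univ
  rw [show (univ : Finset (Fin d)) \ univ = ∅ from Finset.sdiff_self _] at h
  have h1 := congrArg Complex.re h
  simp only [prod_empty, mul_one, Complex.re_sum] at h1
  unfold cs
  convert h1 using 2 with x _ x _
  · rw [Complex.re_ofReal_mul]
  · rw [← Complex.ofReal_prod, ← Complex.ofReal_mul, Complex.ofReal_re]

theorem FF_perm (f : Tor d L → ℝ) (hf : SymF f) (i j : Fin d) :
    ∑ x, ab i x ^ 2 * |f x| = ∑ x, ab j x ^ 2 * |f x| := by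
  rw [← Equiv.sum_comp (Equiv.arrowCongr (Equiv.swap i j) (Equiv.refl (ZMod L)))]
  refine sum_congr rfl fun x _ => ?_
  have h1 : (Equiv.arrowCongr (Equiv.swap i j) (Equiv.refl (ZMod L))) x = x ∘ Equiv.swap i j := by
    ext a
    simp [Equiv.arrowCongr]
  rw [h1, hf.2]
  unfold ab
  simp

theorem FF_mom (f : Tor d L → ℝ) (hf : SymF f) (j : Fin d) :
    ∑ x, ab j x ^ 2 * |f x| = mom f / d := by
  have hd : (d : ℝ) ≠ 0 := by
    have : 0 < d := Fin.pos j
    positivity
  rw [eq_div_iff hd]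
  unfold mom
  rw [sum_comm, sum_congr rfl fun i _ => FF_perm f hf i j, sum_const, card_univ,
    Fintype.card_fin, nsmul_eq_mul, mul_comm]

/-- FF: weights of symmetric functions -/
theorem sym_weight (f : Tor d L → ℝ) (hf : SymF f) (hd : 1 ≤ d) (k : Tor d L) :
    ∑ x, |f x| * (1 - cs k x) ≤ (1 - Dh k) * mom f := by
  have hd0 : (d : ℝ) ≠ 0 := by positivity
  have h1 : ∑ x, |f x| * (1 - cs k x) = ∑ x, |f x| * (1 - ∏ j, FF_c k x j) := by
    have h2 := FF_sum_cs (fun x => |f x|) (fun j x => by rw [hf.1]) k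
    have h3 : ∀ c : Tor d L → ℝ, ∑ x, |f x| * (1 - c x) = ∑ x, |f x| - ∑ x, |f x| * c x := by
      intro c
      rw [← sum_sub_distrib]
      exact sum_congr rfl fun x _ => by ring
    rw [h3, h3, h2]
  rw [h1]
  calc ∑ x, |f x| * (1 - ∏ j, FF_c k x j)
      ≤ ∑ x, |f x| * ∑ j, ab j x ^ 2 * (1 - (ZMod.stdAddChar (k j) : ℂ).re) := by
        refine sum_le_sum fun x _ => mul_le_mul_of_nonneg_left ?_ (abs_nonneg _)
        refine (FF_prod univ (FF_c k x) (FF_abs_c k x)).1.trans ?_
        exact sum_le_sum fun j _ => FF_c_bound k x j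
    _ = ∑ j, (1 - (ZMod.stdAddChar (k j) : ℂ).re) * ∑ x, ab j x ^ 2 * |f x| := by
        simp_rw [mul_sum]
        rw [sum_comm]
        exact sum_congr rfl fun j _ => sum_congr rfl fun x _ => by ring
    _ = ∑ j : Fin d, (1 - (ZMod.stdAddChar (k j) : ℂ).re) * (mom f / d) :=
        sum_congr rfl fun j _ => by rw [FF_mom f hf j]
    _ = (1 - Dh k) * mom f := by
        rw [← sum_mul, sum_sub_distrib, sum_const, card_univ, Fintype.card_fin, nsmul_eq_mul,
          mul_one]
        unfold Dh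
        field_simp

/-- FF -/
theorem sym_grad (f : Tor d L → ℝ) (hf : SymF f) (hd : 1 ≤ d) (k : Tor d L) (j : Fin d) :
    |fh f k - fh f (k + Pi.single j 1)| ≤ 2 * Real.pi / (L * d) * mom f := by
  have hd0 : (d : ℝ) ≠ 0 := by positivity
  have hL0 : (0 : ℝ) < L := by
    have : L ≠ 0 := NeZero.ne L
    positivity
  have hcs : ∀ x : Tor d L, |cs k x - cs (k + Pi.single j 1) x| ≤
      2 * Real.pi / L * ab j x ^ 2 := by
    intro x
    have h1 : ee (k + Pi.single j 1) x = ee k x * (ZMod.stdAddChar (x j) : ℂ) := by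
      unfold ee
      rw [← AddChar.map_add_eq_mul]
      congr 1
      have h2 : ∀ i, (k + Pi.single j 1 : Tor d L) i * x i =
          k i * x i + (if i = j then x i else 0) := by
        intro i
        rw [Pi.add_apply, add_mul]
        congr 1
        by_cases h : i = j
        · subst h; simp
        · simp [h]
      rw [sum_congr rfl fun i _ => h2 i, sum_add_distrib]
      simp
    have h3 : |cs k x - cs (k + Pi.single j 1) x| ≤ ‖1 - (ZMod.stdAddChar (x j) : ℂ)‖ := by
      unfold cs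
      rw [← Complex.sub_re, h1]
      refine (Complex.abs_re_le_norm _).trans ?_
      rw [show ee k x - ee k x * (ZMod.stdAddChar (x j) : ℂ) =
        ee k x * (1 - (ZMod.stdAddChar (x j) : ℂ)) by ring, norm_mul, FF_norm_ee, one_mul]
    refine h3.trans ?_
    have h4 : (ZMod.stdAddChar (x j) : ℂ) =
        Complex.exp (Complex.I * ((2 * Real.pi * (x j).valMinAbs / L : ℝ) : ℂ)) := by
      conv_lhs => rw [← ZMod.coe_valMinAbs (x j)]
      rw [ZMod.stdAddChar_coe]
      congr 1
      push_cast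
      ring
    rw [h4]
    have h5 : ‖1 - Complex.exp (Complex.I * ((2 * Real.pi * (x j).valMinAbs / L : ℝ) : ℂ))‖ ≤
        |2 * Real.pi * (x j).valMinAbs / L| := by
      rw [norm_sub_rev]
      exact Real.norm_exp_I_mul_ofReal_sub_one_le
    refine h5.trans ?_
    unfold ab
    rw [abs_div, abs_mul, abs_of_pos (by positivity : (0 : ℝ) < 2 * Real.pi),
      abs_of_pos hL0, sq_abs]
    have h6 : |((x j).valMinAbs : ℝ)| ≤ ((x j).valMinAbs : ℝ) ^ 2 := by
      have : |(x j).valMinAbs| ≤ (x j).valMinAbs ^ 2 := by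
        rw [← sq_abs]
        nlinarith [abs_nonneg (x j).valMinAbs, Int.one_le_abs (z := (x j).valMinAbs),
          sq_nonneg (|(x j).valMinAbs| - 1), Int.le_self_sq |(x j).valMinAbs|]
      exact_mod_cast this
    have hpi := Real.pi_pos
    calc 2 * Real.pi * |((x j).valMinAbs : ℝ)| / L = 2 * Real.pi / L * |((x j).valMinAbs : ℝ)| := by
          ring
      _ ≤ 2 * Real.pi / L * ((x j).valMinAbs : ℝ) ^ 2 := by gcongr
  unfold fh
  rw [← sum_sub_distrib]
  calc |∑ x, (f x * cs k x - f x * cs (k + Pi.single j 1) x)|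
      ≤ ∑ x, |f x * cs k x - f x * cs (k + Pi.single j 1) x| := abs_sum_le_sum_abs _ _
    _ ≤ ∑ x, 2 * Real.pi / L * (ab j x ^ 2 * |f x|) := by
        refine sum_le_sum fun x _ => ?_
        rw [← mul_sub, abs_mul]
        calc |f x| * |cs k x - cs (k + Pi.single j 1) x|
            ≤ |f x| * (2 * Real.pi / L * ab j x ^ 2) :=
              mul_le_mul_of_nonneg_left (hcs x) (abs_nonneg _)
          _ = 2 * Real.pi / L * (ab j x ^ 2 * |f x|) := by ring
    _ = 2 * Real.pi / (L * d) * mom f := by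
        rw [← mul_sum, FF_mom f hf j]
        field_simp

end FF

end Pool.Agent.helper66.LE
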