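import Pool.Agent.helper33.LE.FA
import Pool.Agent.helper33.LE.FB
import Pool.Agent.helper64.LE.FE
import Pool.Agent.helper64.LE.FQ
import Pool.Agent.helper65.LE.TA
import Pool.Agent.helper92.LE.FD

/-!
# Moments of the two-point function
-/

set_option autoImplicit false

open Finset Classical

namespace Pool.Agent.helper66.LE

section FM

theorem FM_norm_ee {d L : ℕ} [NeZero L] (k x : Tor d L) : ‖ee k x‖ = 1 := by
  unfold ee
  exact AddChar.norm_apply _ _

theorem FM_abs_cs {d L : ℕ} [NeZero L] (k x : Tor d L) : |cs k x| ≤ 1 := by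
  unfold cs
  exact (Complex.abs_re_le_norm _).trans (FM_norm_ee k x).le

theorem FM_cs_zero {d L : ℕ} [NeZero L] (x : Tor d L) : cs (0 : Tor d L) x = 1 := by
  simp [cs, ee]

theorem FM_mem_uv {d L : ℕ} [NeZero L] (x : Tor d L) :
    x ∈ uv d (ZMod L) ↔ ∃ (i : Fin d) (b : Bool),
      Pi.single i (if b then (1 : ZMod L) else -1) = x := by
  simp only [uv, mem_image, mem_univ, true_and, Prod.exists]

theorem FM_uv_neg {d L : ℕ} [NeZero L] (x : Tor d L) :
    -x ∈ uv d (ZMod L) ↔ x ∈ uv d (ZMod L) := by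
  have h : ∀ y : Tor d L, y ∈ uv d (ZMod L) → -y ∈ uv d (ZMod L) := by
    intro y hy
    obtain ⟨i, b, rfl⟩ := (FM_mem_uv y).1 hy
    refine (FM_mem_uv _).2 ⟨i, !b, ?_⟩
    rw [← Pi.single_neg]
    cases b <;> simp
  exact ⟨fun h' => by simpa using h _ h', h x⟩

theorem FM_qJ_neg {d L : ℕ} [NeZero L] (q : ℝ) (x : Tor d L) : qJ d L q (-x) = qJ d L q x := by
  unfold qJ J
  by_cases h : x ∈ uv d (ZMod L)
  · rw [if_pos h, if_pos ((FM_uv_neg x).2 h)]
  · rw [if_neg h, if_neg (fun h' => h ((FM_uv_neg x).1 h'))]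

/-- FM (from FB, FA, FQ, FE, FD): moments -/
theorem moments : ∃ B₀ : ℝ, 1 ≤ B₀ ∧ ∀ d : ℕ, 72 ≤ d → ∀ X : ℝ, ∃ L₀ : ℕ, 3 ≤ L₀ ∧
    ∀ L ≥ L₀, ∀ [NeZero L], ∀ q : ℝ, 0 ≤ q → q ≤ 1 → chi d L q ≤ X → 2 * d * q ≤ 3 →
    (∀ k : Tor d L, fh (tt d L q) k * (1 - Dh k) ≤ 6) →
    1 / (L : ℝ) ^ d * ∑ k : Tor d L, (1 + fh (tt d L q) k) ^ 18 ≤ B₀ ∧
    (∀ x, (CM (tt d L q) ^ 8) 0 x ≤ B₀) ∧
    ∀ x, (CM (tt d L q) ^ 5 * CM (qJ d L q)) 0 x ≤ B₀ / √d := by
  set M : ℝ := 2 ^ 17 * (2 + 6000 ^ 18) with hM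
  have hM1 : (1 : ℝ) ≤ M := by rw [hM]; norm_num
  refine ⟨3 * M, by linarith, ?_⟩
  intro d hd X
  obtain ⟨L₁, hL₁⟩ := sum_inv 18 d (by norm_num) (by omega)
  refine ⟨max (max 3 L₁) ⌈|X| ^ 18⌉₊, le_max_of_le_left (le_max_left _ _), ?_⟩
  intro L hL _ q hq0 hq1 hchi hdq hG
  have hL3 : 3 ≤ L := le_trans (le_trans (le_max_left _ _) (le_max_left _ _)) hL
  have hLL₁ : L ≥ L₁ := le_trans (le_trans (le_max_right _ _) (le_max_left _ _)) hL
  have hLX : |X| ^ 18 ≤ (L : ℝ) :=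
    (Nat.le_ceil _).trans (by exact_mod_cast le_trans (le_max_right _ _) hL)
  have hd1 : 1 ≤ d := by omega
  have hL1 : (1 : ℝ) ≤ L := by exact_mod_cast (by omega : 1 ≤ L)
  set V : ℝ := (L : ℝ) ^ d with hV
  have hV0 : 0 < V := by positivity
  have hLV : (L : ℝ) ≤ V := by
    rw [hV]; exact le_self_pow₀ hL1 (by omega)
  set a : Tor d L → ℝ := fun k => fh (tt d L q) k with ha
  have ha0 : ∀ k, 0 ≤ a k := fun k => fh_tt_nonneg hq0 hq1 k
  have hazero : a 0 = chi d L q := by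
    rw [ha]
    simp only [fh, FM_cs_zero, mul_one, chi]
  -- the bound of a single term
  have hterm : ∀ k : Tor d L, a k ^ 18 ≤ (if k = 0 then |X| ^ 18 else 0) +
      6 ^ 18 * (if k = 0 then 0 else ((1 - Dh k) ^ 18)⁻¹) := by
    intro k
    by_cases hk : k = 0
    · subst hk
      simp only [if_true, mul_zero, add_zero]
      refine pow_le_pow_left₀ (ha0 0) ?_ 18
      rw [hazero]
      exact hchi.trans (le_abs_self X)
    · simp only [hk, if_false, zero_add]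
      have h1 : 0 < 1 - Dh k := by linarith [(Dh_facts hd1 k).2.2 hk]
      have h2 : a k ≤ 6 / (1 - Dh k) := by
        rw [le_div_iff₀ h1]; exact hG k
      calc a k ^ 18 ≤ (6 / (1 - Dh k)) ^ 18 := pow_le_pow_left₀ (ha0 k) h2 18
        _ = 6 ^ 18 * ((1 - Dh k) ^ 18)⁻¹ := by rw [div_pow, div_eq_mul_inv]
  have hsum18 : ∑ k, a k ^ 18 ≤ (1 + 6000 ^ 18) * V := by
    calc ∑ k, a k ^ 18 ≤ ∑ k : Tor d L, ((if k = 0 then |X| ^ 18 else 0) +
          6 ^ 18 * (if k = 0 then 0 else ((1 - Dh k) ^ 18)⁻¹)) := sum_le_sum fun k _ => hterm k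
      _ = |X| ^ 18 + 6 ^ 18 * ∑ k : Tor d L, (if k = 0 then 0 else ((1 - Dh k) ^ 18)⁻¹) := by
        rw [sum_add_distrib, ← mul_sum, sum_ite_eq' univ (0 : Tor d L)]
        simp
      _ ≤ V + 6 ^ 18 * (1000 ^ 18 * V) := by
        refine add_le_add (hLX.trans hLV) ?_
        exact mul_le_mul_of_nonneg_left (hL₁ L hLL₁) (by norm_num)
      _ = (1 + 6000 ^ 18) * V := by
        have : (6000 : ℝ) ^ 18 = 6 ^ 18 * 1000 ^ 18 := by rw [← mul_pow]; norm_num
        rw [this]; ring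
  have hcardV : ((univ : Finset (Tor d L)).card : ℝ) = V := by
    rw [card_univ, Fintype.card_fun, ZMod.card, Fintype.card_fin, hV]
    push_cast
    rfl
  have hmom : ∑ k, (1 + a k) ^ 18 ≤ M * V := by
    calc ∑ k, (1 + a k) ^ 18 ≤ ∑ k : Tor d L, 2 ^ 17 * (1 + a k ^ 18) := by
          refine sum_le_sum fun k _ => ?_
          have := add_pow_le (zero_le_one) (ha0 k) 18
          simpa using this
      _ = 2 ^ 17 * (V + ∑ k, a k ^ 18) := by
        rw [← mul_sum, sum_add_distrib, sum_const, nsmul_eq_mul, mul_one, hcardV]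
      _ ≤ 2 ^ 17 * (V + (1 + 6000 ^ 18) * V) := by gcongr
      _ = M * V := by rw [hM]; ring
  have hle : ∀ (k : Tor d L) (m : ℕ), m ≤ 18 → a k ^ m ≤ (1 + a k) ^ 18 := by
    intro k m hm
    calc a k ^ m ≤ (1 + a k) ^ m := pow_le_pow_left₀ (ha0 k) (by linarith) m
      _ ≤ (1 + a k) ^ 18 := pow_le_pow_right₀ (by linarith [ha0 k]) hm
  have h18 : 1 / V * ∑ k, (1 + a k) ^ 18 ≤ M := by
    rw [one_div, inv_mul_le_iff₀ hV0, mul_comm]
    exact hmom
  refine ⟨h18.trans (by linarith), ?_, ?_⟩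
  · intro x
    rw [CM_pow_fourier _ tt_neg]
    calc 1 / V * ∑ k, fh (tt d L q) k ^ 8 * cs k (x - 0)
        ≤ 1 / V * ∑ k, (1 + a k) ^ 18 := by
          refine mul_le_mul_of_nonneg_left (sum_le_sum fun k _ => ?_) (by positivity)
          calc a k ^ 8 * cs k (x - 0) ≤ a k ^ 8 * 1 :=
                mul_le_mul_of_nonneg_left ((le_abs_self _).trans (FM_abs_cs k _))
                  (pow_nonneg (ha0 k) 8)
            _ ≤ (1 + a k) ^ 18 := by rw [mul_one]; exact hle k 8 (by norm_num)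
      _ ≤ 3 * M := h18.trans (by linarith)
  · intro x
    rw [CM_fourier _ _ tt_neg (FM_qJ_neg q)]
    have h5 : ∑ k, fh (tt d L q) k ^ 5 * fh (qJ d L q) k * cs k (x - 0) ≤
        3 * ∑ k, a k ^ 5 * |Dh k| := by
      rw [mul_sum]
      refine sum_le_sum fun k _ => ?_
      rw [fh_qJ hL3 hd1]
      have hdq0 : 0 ≤ 2 * d * q := by positivity
      calc a k ^ 5 * (2 * d * q * Dh k) * cs k (x - 0)
          ≤ |a k ^ 5 * (2 * d * q * Dh k) * cs k (x - 0)| := le_abs_self _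
        _ = a k ^ 5 * (2 * d * q * |Dh k|) * |cs k (x - 0)| := by
          rw [abs_mul, abs_mul, abs_mul, abs_of_nonneg (pow_nonneg (ha0 k) 5),
            abs_of_nonneg hdq0]
        _ ≤ a k ^ 5 * (3 * |Dh k|) * 1 := by
          have h1 := pow_nonneg (ha0 k) 5
          have h2 := FM_abs_cs k (x - 0)
          have h3 := abs_nonneg (Dh k)
          gcongr
        _ = 3 * (a k ^ 5 * |Dh k|) := by ring
    have hcs : (∑ k, a k ^ 5 * |Dh k|) ^ 2 ≤ (M * V) * (V / (2 * d)) := by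
      calc (∑ k, a k ^ 5 * |Dh k|) ^ 2 ≤ (∑ k, (a k ^ 5) ^ 2) * ∑ k : Tor d L, |Dh k| ^ 2 :=
            sum_mul_sq_le_sq_mul_sq _ _ _
        _ ≤ (M * V) * (V / (2 * d)) := by
          refine mul_le_mul ?_ ?_ (by positivity) (by positivity)
          · refine (sum_le_sum fun k _ => ?_).trans hmom
            rw [← pow_mul]
            exact hle k 10 (by norm_num)
          · simp only [sq_abs]
            exact sum_Dh_sq hL3 hd1
    have hd0 : (0 : ℝ) < d := by exact_mod_cast hd1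
    have h6 : ∑ k, a k ^ 5 * |Dh k| ≤ M * V / √d := by
      refine abs_le_of_sq_le_sq' ?_ (by positivity) |>.2
      refine hcs.trans ?_
      rw [div_pow, Real.sq_sqrt hd0.le, mul_pow]
      rw [show M * V * (V / (2 * d)) = (M * V ^ 2 / 2) / d by field_simp]
      refine div_le_div_of_nonneg_right ?_ hd0.le
      nlinarith [sq_nonneg V, mul_nonneg (by linarith : (0 : ℝ) ≤ M) (sq_nonneg V),
        mul_nonneg (mul_nonneg (by linarith : (0 : ℝ) ≤ M) (by linarith : (0 : ℝ) ≤ M - 1))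
          (sq_nonneg V)]
    calc 1 / V * ∑ k, fh (tt d L q) k ^ 5 * fh (qJ d L q) k * cs k (x - 0)
        ≤ 1 / V * (3 * (M * V / √d)) := by
          refine mul_le_mul_of_nonneg_left (h5.trans ?_) (by positivity)
          linarith
      _ = 3 * M / √d := by field_simp

end FM

end Pool.Agent.helper66.LE
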