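import Pool.Agent.helper83.LE.SpecB

/-!
# Row `le:PIN` (MP_baa4d7): integrality
-/

set_option autoImplicit false

namespace Pool.Agent.LE

open Pool.Agent.helper58.DC Pool.Agent.DI Pool.Agent.GR Pool.Agent.OB Pool.Agent.DR Pool.Agent.FI Pool.Agent.FI3 Pool.Agent.FI4 Pool.Agent.FI4C

/-- Row PIN. -/
theorem PIN (hPK1 : PK1_stmt) (hPK2 : PK2_stmt) (hPK3 : PK3_stmt) (hLCO : LCO_stmt) : PIN_stmt := by
  intro p M D _ _ X _ R I β d n hPD
  have hset := hPD.set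
  obtain ⟨⟨κ, hκ, hκ2⟩, δ, ε, hε⟩ := hPK1 p M D X R I β d n hPD
  refine ⟨ε, hε.pm, ?_, ?_⟩
  · intro u hu s hs
    obtain ⟨h1, h2⟩ := hPD.pow u hu s hs
    exact hε.dep _ h1 u hu h2
  intro χ F hF hF0
  have hpr := hset.pr
  have : Fact p.Prime := ⟨hpr⟩
  obtain ⟨k, hk⟩ := hPD.pg.exists_card_eq
  obtain ⟨q, hq⟩ := hPK3 p M D X R I β d n δ ε hPD hε χ F hF hF0
  obtain ⟨z, hz, hzq⟩ := hPK2 p M D X R I β d n δ ε κ hPD hε hκ hκ2 χ F hF hF0
  have hFi : ∀ u, IsIntegral ℤ (F u) := (hLCO p M D F hset hPD.pg hF).2.1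
  have hint : IsIntegral ℤ (∑ u, R.indicator (fun u => (ε u : ℂ) * d χ u) u * (starRingEnd ℂ) (F u)) := by
    refine IsIntegral.sum _ fun u _ => ?_
    refine IsIntegral.mul ?_ (map_isIntegral_int (starRingEnd ℂ) (hFi u))
    by_cases hu : u ∈ R
    · rw [Set.indicator_of_mem hu]
      refine IsIntegral.mul ?_ (hPD.int χ u hu)
      have := isIntegral_algebraMap (R := ℤ) (A := ℂ) (x := ε u)
      simpa using this
    · rw [Set.indicator_of_notMem hu]
      exact isIntegral_zero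
  rw [hzq] at hq
  rw [hzq] at hint ⊢
  rw [hq] at hint
  have hint2 : IsIntegral ℤ q := by
    have h1 : IsIntegral ℤ (algebraMap ℚ ℂ q) := by simpa using hint
    exact (isIntegral_algebraMap_iff (algebraMap ℚ ℂ).injective).1 h1
  obtain ⟨N, hN⟩ := IsIntegrallyClosed.isIntegral_iff.1 hint2
  have hN' : (q : ℂ) = (N : ℂ) := by
    rw [← hN]
    simp
  rw [hN'] at hq
  rw [hk] at hq ⊢
  have hp0 : (p : ℂ) ≠ 0 := hset.p_ne
  have hpk : ((p ^ k : ℕ) : ℂ) ≠ 0 := by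
    push_cast
    exact pow_ne_zero _ hp0
  have hzN : z = (N : ℂ) / ((p ^ k : ℕ) : ℂ) := by
    rw [eq_div_iff hpk, mul_comm]
    exact hq
  rw [hzN] at hz
  have key : ∀ j, j ≤ k → ∃ N' : ℤ, N = (p : ℤ) ^ j * N' := by
    intro j
    induction j with
    | zero => exact fun _ => ⟨N, by simp⟩
    | succ j ih =>
      intro hj
      obtain ⟨N', hN2⟩ := ih (by omega)
      have h1 : InM M (N' : ℂ) := by
        have h2 : (N' : ℂ) = ((N : ℂ) / ((p ^ k : ℕ) : ℂ)) * ((p : ℂ) ^ (k - j - 1) * (p : ℂ)) := by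
          rw [hN2]
          push_cast
          have h3 : (p : ℂ) ^ k = (p : ℂ) ^ j * ((p : ℂ) ^ (k - j - 1) * (p : ℂ)) := by
            rw [← pow_succ, ← pow_add]
            exact congrArg (fun t => (p : ℂ) ^ t) (by omega)
          rw [h3]
          have h4 : (p : ℂ) ^ j ≠ 0 := pow_ne_zero _ hp0
          have h5 : (p : ℂ) ^ (k - j - 1) ≠ 0 := pow_ne_zero _ hp0
          field_simp
        rw [h2]
        exact InM.mul_left hset hz (InM.mul_left hset (IntAt.pow hset (IntAt.natCast hset p) _) (InM.prime_mem hset))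
      obtain ⟨N3, hN3⟩ := (InM.intCast hset N').1 h1
      exact ⟨N3, by rw [hN2, hN3, pow_succ]; ring⟩
  obtain ⟨a, ha⟩ := key k le_rfl
  refine ⟨a, ?_⟩
  rw [hq, ha]
  push_cast
  ring

end Pool.Agent.LE
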